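import Mathlib
import Pool.Agent.Y876.FF.Fin
import Pool.Agent.W25.IT.Basic
/-!
# Exact patterns of primes among the iterates of `x ↦ a + d x`
-/

namespace Pool.Agent.R493.EX

open Finset Filter
open Pool.Agent.W25.IT (itc itc_zero itc_inj itc_coprime itc_add iter_admissible iter_miss)

/-- the exponent of the logarithm -/
noncomputable def B45 : ℕ := Pool.Agent.Y876.FF.CC 45 + 3

theorem exists_nat_of_int {ι : Type*} {p : ℕ} (hp : p.Prime) (D b : ι → ℤ) (S : Finset ι)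
    (h : ∃ n : ℤ, ∀ i ∈ S, ¬ (p : ℤ) ∣ D i * n + b i) :
    ∃ n : ℕ, ∀ i ∈ S, ¬ (p : ℤ) ∣ D i * n + b i := by
  obtain ⟨n, hn⟩ := h
  have hp0 : (p : ℤ) ≠ 0 := by exact_mod_cast hp.ne_zero
  refine ⟨(n % p).toNat, fun i hi hd => hn i hi ?_⟩
  rw [Int.toNat_of_nonneg (Int.emod_nonneg _ hp0)] at hd
  have h1 : (p : ℤ) ∣ n - n % p := Int.dvd_self_sub_emod
  have h2 : D i * n + b i = (D i * (n % p) + b i) + D i * (n - n % p) := by ring
  rw [h2]
  exact dvd_add hd (Dvd.dvd.mul_left h1 _)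

/-- at most 45 exponents miss a class modulo every prime above 43 -/
theorem miss_large {S : Finset ℕ} (hS : S.card = 45) {p : ℕ} (hp : p.Prime) (h43 : 43 < p) :
    ∃ r : ℕ, ∀ e ∈ S, ¬ e ≡ r [MOD p] := by
  have hp47 : 47 ≤ p := by
    by_contra hlt
    push Not at hlt
    interval_cases p <;> revert hp <;> decide
  by_contra hcon
  push Not at hcon
  have h1 : range p ⊆ S.image (fun e => e % p) := by
    intro r hr
    rw [mem_range] at hr
    obtain ⟨e, he, her⟩ := hcon r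
    exact mem_image.2 ⟨e, he, by rw [her, Nat.mod_eq_of_lt hr]⟩
  have h2 := card_le_card h1
  rw [card_range] at h2
  have h3 := (h2.trans card_image_le)
  omega

theorem forms_ne {a d : ℤ} (hd : 1 ≤ d) (hg : Int.gcd a d = 1) (ha : a ≠ 0) {i j : ℕ} (hij : i ≠ j) :
    d ^ i * itc a d j ≠ d ^ j * itc a d i := by
  intro h
  have hcop : ∀ k, IsCoprime (d ^ k) (itc a d k) := by
    intro k
    rw [Int.isCoprime_iff_gcd_eq_one]
    by_contra hne
    obtain ⟨r, hr, hrd⟩ := Nat.exists_prime_and_dvd hne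
    have h1 : (r : ℤ) ∣ (Int.gcd (d ^ k) (itc a d k) : ℤ) := Int.natCast_dvd_natCast.2 hrd
    exact itc_coprime hg hr (h1.trans (Int.gcd_dvd_left _ _)) (h1.trans (Int.gcd_dvd_right _ _))
  have h1 : d ^ i ∣ d ^ j := (hcop i).dvd_of_dvd_mul_right (Dvd.intro _ h)
  have h2 : d ^ j ∣ d ^ i := (hcop j).dvd_of_dvd_mul_right (Dvd.intro _ h.symm)
  have h3 : d ^ i = d ^ j := Int.dvd_antisymm (by positivity) (by positivity) h1 h2
  apply hij
  apply itc_inj hd ha h3
  rw [h3] at h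
  have h4 : d ^ j ≠ 0 := by positivity
  exact (mul_left_cancel₀ h4 h).symm

/-- exact patterns of the prime values among the iterates, inside a given set of 45 exponents -/
theorem exact_iter_ev (a d : ℤ) (hd : 1 ≤ d) (hg : Int.gcd a d = 1) (h2 : 2 ∣ a * d) (ha : a ≠ 0)
    (S : Finset ℕ) (hS : S.card = 45)
    (hcls : ∀ p : ℕ, p.Prime → 3 ≤ p → p ≤ 43 → (p : ℤ) ∣ d - 1 → ¬ (p : ℤ) ∣ a →
      ∃ r : ℕ, ∀ e ∈ S, ¬ e ≡ r [MOD p]) (R : ℕ) :
    ∀ᶠ x : ℝ in atTop, ∃ T ⊆ S, 2 ≤ T.card ∧ x / Real.log x ^ B45 ≤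
      (Set.ncard {n : ℕ | (n : ℝ) ≤ x ∧
        ∀ j ≤ R, ((d ^ j * (n : ℤ) + itc a d j).natAbs.Prime ↔ j ∈ T)} : ℝ) := by
  classical
  set m : ℕ := R + S.sup id + 1 with hm
  have hSm : ∀ e ∈ S, e < m := by
    intro e he
    have h3 : e ≤ S.sup id := Finset.le_sup (f := id) he
    omega
  set S' : Finset (Fin m) := univ.filter (fun i => (i : ℕ) ∈ S) with hS'
  have hcard : S'.card = 45 := by
    rw [← hS]
    apply Finset.card_bij (fun (i : Fin m) _ => (i : ℕ))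
    · intro i hi
      exact (mem_filter.1 hi).2
    · intro i _ j _ h
      exact Fin.ext h
    · intro e he
      exact ⟨⟨e, hSm e he⟩, mem_filter.2 ⟨mem_univ _, he⟩, rfl⟩
  have hex := Pool.Agent.Y876.FF.trace_int Pool.Agent.Y876.FF.lh45
    (fun i : Fin m => d ^ (i : ℕ)) (fun i : Fin m => itc a d i) (fun i => by positivity)
    (fun i j hij => forms_ne hd hg ha (fun h => hij (Fin.ext h))) S' hcard.ge (by
      intro p hp
      apply exists_nat_of_int hp
      obtain ⟨n, hn⟩ := iter_admissible hg h2 (fun i : S => (i : ℕ)) hp (by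
        intro hp3 hp1 hpa
        by_cases h43 : p ≤ 43
        · obtain ⟨r, hr⟩ := hcls p hp hp3 h43 hp1 hpa
          exact iter_miss (fun i : S => (i : ℕ)) hp hp1 hpa r (fun i => hr i i.2)
        · obtain ⟨r, hr⟩ := miss_large hS hp (by omega)
          exact iter_miss (fun i : S => (i : ℕ)) hp hp1 hpa r (fun i => hr i i.2))
      exact ⟨n, fun i hi => hn ⟨(i : ℕ), (mem_filter.1 hi).2⟩⟩)
  filter_upwards [hex, eventually_ge_atTop (0 : ℝ)] with x hx hx0
  obtain ⟨T, hT1, hT2, hT3⟩ := hx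
  refine ⟨T.image (fun i : Fin m => (i : ℕ)), ?_, ?_, ?_⟩
  · intro e he
    obtain ⟨i, hi, rfl⟩ := mem_image.1 he
    exact (mem_filter.1 (hT1 hi)).2
  · rw [card_image_of_injective _ Fin.val_injective]
    exact hT2
  · refine hT3.trans ?_
    rw [Nat.cast_le]
    apply Set.ncard_le_ncard
    · rintro n ⟨h3, h4⟩
      refine ⟨h3, fun j hj => ?_⟩
      have h5 := h4 ⟨j, by omega⟩
      rw [h5]
      constructor
      · intro h6
        exact mem_image.2 ⟨_, h6, rfl⟩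
      · intro h6
        obtain ⟨i, hi, hij⟩ := mem_image.1 h6
        have : i = ⟨j, by omega⟩ := Fin.ext hij
        rwa [← this]
    · apply (Set.finite_Iic ⌊x⌋₊).subset
      rintro n ⟨h3, _⟩
      exact Nat.le_floor h3

/-- from the integers `n` to the prime value `q` of the iterate with the least exponent of the pattern -/
theorem exact_primes_ev (a d : ℤ) (hd : 1 ≤ d) (J R : ℕ) : ∃ c : ℕ, 1 ≤ c ∧
    ∀ᶠ y : ℝ in atTop, ∀ (T : Finset ℕ) (t : ℕ), t ∈ T → t ≤ J → R ≤ t → (∀ e ∈ T, t ≤ e) →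
      y / Real.log y ^ B45 ≤ (Set.ncard {n : ℕ | (n : ℝ) ≤ y ∧
        ∀ j ≤ J + R, ((d ^ j * (n : ℤ) + itc a d j).natAbs.Prime ↔ j ∈ T)} : ℝ) →
      (c * y) / Real.log (c * y) ^ (B45 + 1) ≤
        (Set.ncard {q : ℕ | (q : ℝ) ≤ c * y ∧ q.Prime ∧ (∀ j ∈ Icc 1 R,
          ((∃ p : ℕ, p.Prime ∧ a * ∑ i ∈ range j, d ^ i + q * d ^ j = p) ↔ t + j ∈ T)) ∧
          ∀ j ∈ Icc 1 R, ∀ q' : ℕ, q'.Prime → a * ∑ i ∈ range j, d ^ i + q' * d ^ j ≠ q} : ℝ) := by
  classical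
  -- constants
  set N₀ : ℕ := (∑ j ∈ range (J + R + 1), (itc a d j).natAbs) + 1 with hN₀
  set c : ℕ := (∑ j ∈ range (J + 1), (2 * (d ^ j).natAbs + (itc a d j).natAbs)) + N₀ + 1 with hc
  refine ⟨c, by omega, ?_⟩
  have hl : ∀ᶠ x : ℝ in atTop, (2 * c : ℝ) ≤ Real.log x :=
    Real.tendsto_log_atTop.eventually_ge_atTop _
  have hl2 : ∀ᶠ x : ℝ in atTop, 2 * (N₀ : ℝ) ≤ x / Real.log x ^ B45 := by
    have h2 := (Real.isLittleO_pow_log_id_atTop (n := B45)).def (c := 1 / (2 * (N₀ : ℝ))) (by positivity)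
    filter_upwards [h2, eventually_ge_atTop (3 : ℝ)] with x hx hx3
    have h4 : (0 : ℝ) < Real.log x := Real.log_pos (by linarith)
    simp only [id, Real.norm_eq_abs] at hx
    rw [abs_of_nonneg (by positivity), abs_of_nonneg (by linarith)] at hx
    rw [le_div_iff₀ (by positivity)]
    have h5 : 2 * (N₀ : ℝ) * (Real.log x) ^ B45 ≤ 2 * N₀ * (1 / (2 * (N₀ : ℝ)) * x) :=
      mul_le_mul_of_nonneg_left hx (by positivity)
    have h6 : 2 * (N₀ : ℝ) * (1 / (2 * (N₀ : ℝ)) * x) = x := by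
      have : (N₀ : ℝ) ≠ 0 := by positivity
      field_simp
    linarith
  filter_upwards [hl, hl2, eventually_ge_atTop (3 : ℝ)] with y hlogc hyN hy3 T t ht htJ htR hmin hcnt
  have hdt : 1 ≤ (d ^ t).natAbs := by
    have : 0 < d ^ t := by positivity
    omega
  have hct : 2 * (d ^ t).natAbs + (itc a d t).natAbs ≤ c := by
    have h1 := Finset.single_le_sum (f := fun j => 2 * (d ^ j).natAbs + (itc a d j).natAbs)
      (s := range (J + 1)) (fun _ _ => Nat.zero_le _) (mem_range.2 (by omega : t < J + 1))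
    omega
  have hcr : 2 * ((d ^ t).natAbs : ℝ) + ((itc a d t).natAbs : ℝ) ≤ c := by exact_mod_cast hct
  have hc1 : (1 : ℝ) ≤ c := by
    have : 1 ≤ c := by omega
    exact_mod_cast this
  -- the injection
  set W : Finset ℕ := (Icc N₀ ⌊y⌋₊).filter (fun n : ℕ =>
    ∀ j ≤ J + R, ((d ^ j * (n : ℤ) + itc a d j).natAbs.Prime ↔ j ∈ T)) with hW
  have hWcard : (Set.ncard {n : ℕ | (n : ℝ) ≤ y ∧
        ∀ j ≤ J + R, ((d ^ j * (n : ℤ) + itc a d j).natAbs.Prime ↔ j ∈ T)} : ℝ) ≤ W.card + N₀ := by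
    have h2 : {n : ℕ | (n : ℝ) ≤ y ∧
        ∀ j ≤ J + R, ((d ^ j * (n : ℤ) + itc a d j).natAbs.Prime ↔ j ∈ T)} ⊆
        ((W ∪ range N₀ : Finset ℕ) : Set ℕ) := by
      rintro n ⟨h3, h4⟩
      rw [mem_coe, mem_union, mem_range]
      by_cases h5 : n < N₀
      · exact Or.inr h5
      · exact Or.inl (mem_filter.2 ⟨mem_Icc.2 ⟨by omega, Nat.le_floor h3⟩, h4⟩)
    have h3 := Set.ncard_le_ncard h2 (Finset.finite_toSet _)
    rw [Set.ncard_coe_finset] at h3
    have h4 := h3.trans (card_union_le _ _)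
    rw [card_range] at h4
    exact_mod_cast h4
  have hpos : ∀ n ∈ W, ∀ j ≤ J + R, 0 < d ^ j * (n : ℤ) + itc a d j := by
    intro n hn j hj
    have h2 : N₀ ≤ n := (mem_Icc.1 (mem_filter.1 hn).1).1
    have h3 : (itc a d j).natAbs ≤ ∑ j ∈ range (J + R + 1), (itc a d j).natAbs :=
      Finset.single_le_sum (f := fun j => (itc a d j).natAbs) (fun _ _ => Nat.zero_le _)
        (mem_range.2 (by omega))
    have h4 : (1 : ℤ) ≤ d ^ j := by
      have : 0 < d ^ j := by positivity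
      omega
    have h5 : (n : ℤ) ≤ d ^ j * n := by nlinarith
    omega
  have hinj : W.card ≤ Set.ncard {q : ℕ | (q : ℝ) ≤ c * y ∧ q.Prime ∧ (∀ j ∈ Icc 1 R,
        ((∃ p : ℕ, p.Prime ∧ a * ∑ i ∈ range j, d ^ i + q * d ^ j = p) ↔ t + j ∈ T)) ∧
        ∀ j ∈ Icc 1 R, ∀ q' : ℕ, q'.Prime → a * ∑ i ∈ range j, d ^ i + q' * d ^ j ≠ q} := by
    have hfin : {q : ℕ | (q : ℝ) ≤ c * y ∧ q.Prime ∧ (∀ j ∈ Icc 1 R,
        ((∃ p : ℕ, p.Prime ∧ a * ∑ i ∈ range j, d ^ i + q * d ^ j = p) ↔ t + j ∈ T)) ∧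
        ∀ j ∈ Icc 1 R, ∀ q' : ℕ, q'.Prime → a * ∑ i ∈ range j, d ^ i + q' * d ^ j ≠ q}.Finite :=
      (Set.finite_Iic ⌊(c : ℝ) * y⌋₊).subset (fun q hq => Nat.le_floor hq.1)
    have e1 : (W.image (fun n : ℕ => (d ^ t * (n : ℤ) + itc a d t).toNat)).card = W.card := by
      apply card_image_of_injOn
      intro n hn n' hn' he
      have h2 := hpos n hn t (by omega)
      have h3 := hpos n' hn' t (by omega)
      simp only at he
      have h4 : d ^ t * (n : ℤ) + itc a d t = d ^ t * (n' : ℤ) + itc a d t := by omega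
      have h5 : d ^ t * (n : ℤ) = d ^ t * n' := by linarith
      have h6 : (d ^ t : ℤ) ≠ 0 := by positivity
      exact_mod_cast mul_left_cancel₀ h6 h5
    rw [← e1, ← Set.ncard_coe_finset]
    apply Set.ncard_le_ncard _ hfin
    intro q hq
    rw [mem_coe, mem_image] at hq
    obtain ⟨n, hn, rfl⟩ := hq
    have h2 := hpos n hn t (by omega)
    have e2 : ((d ^ t * (n : ℤ) + itc a d t).toNat : ℤ) = d ^ t * n + itc a d t :=
      Int.toNat_of_nonneg h2.le
    have hpat := (mem_filter.1 hn).2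
    have hprime : ((d ^ t * (n : ℤ) + itc a d t).toNat).Prime := by
      have h3 := (hpat t (by omega)).2 ht
      have h4 : (d ^ t * (n : ℤ) + itc a d t).natAbs = (d ^ t * (n : ℤ) + itc a d t).toNat := by omega
      rwa [h4] at h3
    refine ⟨?_, hprime, ?_, ?_⟩
    · have h3 : (n : ℝ) ≤ y := by
        have h4 := (mem_Icc.1 (mem_filter.1 hn).1).2
        exact (Nat.cast_le.2 h4).trans (Nat.floor_le (by linarith))
      have e3 : (((d ^ t * (n : ℤ) + itc a d t).toNat : ℕ) : ℝ) =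
          (d ^ t : ℤ) * (n : ℝ) + (itc a d t : ℤ) := by
        have e4 : (((d ^ t * (n : ℤ) + itc a d t).toNat : ℤ) : ℝ) =
            ((d ^ t * n + itc a d t : ℤ) : ℝ) := by rw [e2]
        push_cast at e4 ⊢
        exact e4
      rw [e3]
      have e5 : ((d ^ t).natAbs : ℝ) = ((d ^ t : ℤ) : ℝ) := by
        have h5 : ((d ^ t).natAbs : ℤ) = d ^ t := by
          rw [Int.natCast_natAbs]
          exact abs_of_nonneg (by positivity)
        rw [← Int.cast_natCast (d ^ t).natAbs, h5]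
      have e6 : ((itc a d t : ℤ) : ℝ) ≤ ((itc a d t).natAbs : ℝ) := by
        have h5 : itc a d t ≤ ((itc a d t).natAbs : ℤ) := by omega
        rw [← Int.cast_natCast (itc a d t).natAbs]
        exact Int.cast_le.2 h5
      have e7 : (0 : ℝ) ≤ ((d ^ t).natAbs : ℝ) := Nat.cast_nonneg _
      have e8 : (0 : ℝ) ≤ ((itc a d t).natAbs : ℝ) := Nat.cast_nonneg _
      rw [← e5]
      have e9 : ((d ^ t).natAbs : ℝ) * n ≤ ((d ^ t).natAbs : ℝ) * y :=
        mul_le_mul_of_nonneg_left h3 e7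
      have e10 : ((itc a d t).natAbs : ℝ) * 1 ≤ ((itc a d t).natAbs : ℝ) * y :=
        mul_le_mul_of_nonneg_left (by linarith) e8
      have e11 : (2 * ((d ^ t).natAbs : ℝ) + ((itc a d t).natAbs : ℝ)) * y ≤ c * y :=
        mul_le_mul_of_nonneg_right hcr (by linarith)
      have e12 : 0 ≤ ((d ^ t).natAbs : ℝ) * y := mul_nonneg e7 (by linarith)
      linarith
    · intro j hj
      rw [mem_Icc] at hj
      have h3 : a * ∑ i ∈ range j, d ^ i +
          (((d ^ t * (n : ℤ) + itc a d t).toNat : ℕ) : ℤ) * d ^ j =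
          d ^ (t + j) * n + itc a d (t + j) := by
        rw [e2]
        have h4 := itc_add a d j t
        rw [add_comm j t] at h4
        rw [h4]
        unfold itc
        rw [pow_add]
        ring
      have h5 := hpos n hn (t + j) (by omega)
      have h6 := hpat (t + j) (by omega)
      rw [← h6]
      constructor
      · rintro ⟨p, hp, hpe⟩
        rw [h3] at hpe
        rw [hpe, Int.natAbs_natCast]
        exact hp
      · intro hp
        refine ⟨_, hp, ?_⟩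
        rw [h3]
        omega
    · intro j hj q' hq' he
      rw [mem_Icc] at hj
      rw [e2] at he
      have h4 := itc_add a d j (t - j)
      rw [Nat.add_sub_cancel' (by omega)] at h4
      have h5 : d ^ t = d ^ j * d ^ (t - j) := by
        rw [← pow_add, Nat.add_sub_cancel' (by omega)]
      have h6 : d ^ j * (q' : ℤ) = d ^ j * (d ^ (t - j) * n + itc a d (t - j)) := by
        rw [h4, h5] at he
        unfold itc at he ⊢
        linear_combination he
      have h7 : (q' : ℤ) = d ^ (t - j) * n + itc a d (t - j) :=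
        mul_left_cancel₀ (by positivity) h6
      have h8 := (hpat (t - j) (by omega)).1 (by rw [← h7, Int.natAbs_natCast]; exact hq')
      have h9 := hmin _ h8
      omega
  have h10 : (c * y : ℝ) / Real.log (c * y) ^ (B45 + 1) ≤ W.card := by
    have h11 : y / Real.log y ^ B45 ≤ W.card + N₀ := hcnt.trans hWcard
    have h12 : y / Real.log y ^ B45 / 2 ≤ W.card := by linarith
    refine le_trans ?_ h12
    have hly : (0 : ℝ) < Real.log y := Real.log_pos (by linarith)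
    have hyx : y ≤ c * y := by nlinarith
    have hlx : Real.log y ≤ Real.log (c * y) := Real.log_le_log (by linarith) hyx
    have hlx0 : (0 : ℝ) < Real.log (c * y) := by linarith
    rw [div_div, div_le_div_iff₀ (by positivity) (by positivity)]
    have h13 : (Real.log y) ^ (B45 + 1) ≤ (Real.log (c * y)) ^ (B45 + 1) :=
      pow_le_pow_left₀ hly.le hlx _
    calc (c * y : ℝ) * (Real.log y ^ B45 * 2) = (2 * c) * (y * Real.log y ^ B45) := by ring
      _ ≤ Real.log y * (y * Real.log y ^ B45) :=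
          mul_le_mul_of_nonneg_right hlogc (by positivity)
      _ = y * Real.log y ^ (B45 + 1) := by ring
      _ ≤ y * Real.log (c * y) ^ (B45 + 1) := mul_le_mul_of_nonneg_left h13 (by linarith)
  exact h10.trans (by exact_mod_cast hinj)

/-- the number of the primes `q ≤ x` such that, for `1 ≤ j ≤ R`, the `j`-th iterate of `q` is a prime
if and only if `t + j ∈ T`, and `q` is not the `j`-th iterate of a prime -/
noncomputable def cnt (a d : ℤ) (t : ℕ) (T : Finset ℕ) (R : ℕ) (x : ℝ) : ℕ :=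
  Set.ncard {q : ℕ | (q : ℝ) ≤ x ∧ q.Prime ∧ (∀ j ∈ Icc 1 R,
    ((∃ p : ℕ, p.Prime ∧ a * ∑ i ∈ range j, d ^ i + q * d ^ j = p) ↔ t + j ∈ T)) ∧
    ∀ j ∈ Icc 1 R, ∀ q' : ℕ, q'.Prime → a * ∑ i ∈ range j, d ^ i + q' * d ^ j ≠ q}

theorem cnt_anti (a d : ℤ) (t : ℕ) (T : Finset ℕ) {R R' : ℕ} (h : R ≤ R') (x : ℝ) :
    cnt a d t T R' x ≤ cnt a d t T R x := by
  unfold cnt
  apply Set.ncard_le_ncard _ ((Set.finite_Iic ⌊x⌋₊).subset (fun q hq => Nat.le_floor hq.1))
  rintro q ⟨h1, h2, h3, h4⟩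
  refine ⟨h1, h2, fun j hj => h3 j ?_, fun j hj => h4 j ?_⟩
  all_goals
    rw [mem_Icc] at hj ⊢
    omega

/-- at every large `x` there is a pattern for the primes up to `x` -/
theorem every_scale (a d : ℤ) (hd : 1 ≤ d) (hg : Int.gcd a d = 1) (h2 : 2 ∣ a * d) (ha : a ≠ 0)
    (S : Finset ℕ) (hS : S.card = 45)
    (hcls : ∀ p : ℕ, p.Prime → 3 ≤ p → p ≤ 43 → (p : ℤ) ∣ d - 1 → ¬ (p : ℤ) ∣ a →
      ∃ r : ℕ, ∀ e ∈ S, ¬ e ≡ r [MOD p]) (R : ℕ) :
    ∀ᶠ x : ℝ in atTop, ∃ T ⊆ S, 2 ≤ T.card ∧ ∃ t ∈ T, (∀ e ∈ T, t ≤ e) ∧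
      x / Real.log x ^ (B45 + 1) ≤ (cnt a d t T R x : ℝ) := by
  obtain ⟨c, hc, h⟩ := exact_primes_ev a d hd (S.sup id + R) R
  have h1 := exact_iter_ev a d hd hg h2 ha (S.map (addRightEmbedding R))
    (by rw [card_map]; exact hS) (by
      intro p hp h3 h43 h4 h5
      obtain ⟨r, hr⟩ := hcls p hp h3 h43 h4 h5
      refine ⟨r + R, fun e he => ?_⟩
      rw [Finset.mem_map] at he
      obtain ⟨e', he', rfl⟩ := he
      intro hcon
      exact hr e' he' (Nat.ModEq.add_right_cancel' R hcon)) (S.sup id + R + R)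
  have hc0 : (0 : ℝ) < c := by exact_mod_cast hc
  have ht : Tendsto (fun x : ℝ => x / c) atTop atTop := tendsto_id.atTop_div_const hc0
  filter_upwards [ht.eventually (h.and h1)] with x hx
  obtain ⟨hx1, T, hTS, hT2, hT⟩ := hx
  have hne : T.Nonempty := card_pos.1 (by omega)
  have hsh : ∀ e ∈ T, ∃ e' ∈ S, e' + R = e := by
    intro e he
    obtain ⟨e', he', hee⟩ := Finset.mem_map.1 (hTS he)
    exact ⟨e', he', hee⟩
  obtain ⟨t', ht', htt⟩ := hsh _ (T.min'_mem hne)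
  have h3 := hx1 T (T.min' hne) (T.min'_mem hne) (by
      rw [← htt]
      have : t' ≤ S.sup id := Finset.le_sup (f := id) ht'
      omega) (by omega) (fun e he => T.min'_le e he) hT
  have h4 : (c : ℝ) * (x / c) = x := by field_simp
  rw [h4] at h3
  refine ⟨T.image (fun e => e - R), ?_, ?_, T.min' hne - R, mem_image_of_mem _ (T.min'_mem hne), ?_, ?_⟩
  · intro e he
    obtain ⟨e1, he1, rfl⟩ := mem_image.1 he
    obtain ⟨e', he', hee⟩ := hsh e1 he1
    have : e1 - R = e' := by omega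
    rwa [this]
  · rw [card_image_of_injOn]
    · exact hT2
    · intro e1 he1 e2 he2 he
      obtain ⟨e1', _, hee1⟩ := hsh e1 he1
      obtain ⟨e2', _, hee2⟩ := hsh e2 he2
      have he' : e1 - R = e2 - R := he
      omega
  · intro e he
    obtain ⟨e1, he1, rfl⟩ := mem_image.1 he
    have := T.min'_le e1 he1
    omega
  · have h5 : ∀ j, T.min' hne - R + j ∈ T.image (fun e => e - R) ↔ T.min' hne + j ∈ T := by
      intro j
      constructor
      · intro h6
        obtain ⟨e1, he1, hee⟩ := mem_image.1 h6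
        obtain ⟨e', _, hee'⟩ := hsh e1 he1
        have : e1 = T.min' hne + j := by omega
        rwa [← this]
      · intro h6
        exact mem_image.2 ⟨_, h6, by omega⟩
    unfold cnt
    simp only [h5]
    exact h3

/-- one pattern for all `R` -/
theorem one_pattern (a d : ℤ) (hd : 1 ≤ d) (hg : Int.gcd a d = 1) (h2 : 2 ∣ a * d) (ha : a ≠ 0)
    (S : Finset ℕ) (hS : S.card = 45)
    (hcls : ∀ p : ℕ, p.Prime → 3 ≤ p → p ≤ 43 → (p : ℤ) ∣ d - 1 → ¬ (p : ℤ) ∣ a →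
      ∃ r : ℕ, ∀ e ∈ S, ¬ e ≡ r [MOD p]) :
    ∃ T ⊆ S, 2 ≤ T.card ∧ ∃ t ∈ T, (∀ e ∈ T, t ≤ e) ∧ ∀ R : ℕ,
      ∃ᶠ x : ℝ in atTop, x / Real.log x ^ (B45 + 1) ≤ (cnt a d t T R x : ℝ) := by
  classical
  by_contra hcon
  push Not at hcon
  have h3 : ∀ T ∈ S.powerset, ∀ t ∈ T, ∃ R : ℕ, 2 ≤ T.card → (∀ e ∈ T, t ≤ e) →
      ∀ᶠ x : ℝ in atTop, (cnt a d t T R x : ℝ) < x / Real.log x ^ (B45 + 1) := by
    intro T hT t ht
    by_cases hT2 : 2 ≤ T.card ∧ ∀ e ∈ T, t ≤ e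
    · obtain ⟨R, hR⟩ := hcon T (mem_powerset.1 hT) hT2.1 t ht hT2.2
      exact ⟨R, fun _ _ => by simpa using hR⟩
    · exact ⟨0, fun h h' => absurd ⟨h, h'⟩ hT2⟩
  choose! R hR using h3
  set R₀ : ℕ := S.powerset.sup (fun T => T.sup (fun t => R T t)) with hR₀
  have h4 := every_scale a d hd hg h2 ha S hS hcls R₀
  have h5 : ∀ᶠ x : ℝ in atTop, ∀ T ∈ S.powerset, ∀ t ∈ T, 2 ≤ T.card → (∀ e ∈ T, t ≤ e) →
      (cnt a d t T (R T t) x : ℝ) < x / Real.log x ^ (B45 + 1) := by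
    rw [Filter.eventually_all_finset]
    intro T hT
    rw [Filter.eventually_all_finset]
    intro t ht
    by_cases hT2 : 2 ≤ T.card ∧ ∀ e ∈ T, t ≤ e
    · filter_upwards [hR T hT t ht hT2.1 hT2.2] with x hx _ _
      exact hx
    · exact Filter.Eventually.of_forall (fun x h h' => absurd ⟨h, h'⟩ hT2)
  obtain ⟨x, ⟨T, hTS, hT2, t, ht, hmin, hx⟩, h6⟩ := (h4.and h5).exists
  have h7 := h6 T (mem_powerset.2 hTS) t ht hT2 hmin
  have h8 : R T t ≤ R₀ := by
    rw [hR₀]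
    refine le_trans (Finset.le_sup (f := fun t => R T t) ht) ?_
    exact Finset.le_sup (f := fun T : Finset ℕ => T.sup (fun t => R T t)) (mem_powerset.2 hTS)
  have h9 : (cnt a d t T R₀ x : ℝ) ≤ (cnt a d t T (R T t) x : ℝ) := by
    exact_mod_cast cnt_anti a d t T h8 x
  linarith

/-- the pattern relative to its least element -/
theorem cnt_shift (a d : ℤ) (T : Finset ℕ) (t : ℕ) (hmin : ∀ e ∈ T, t ≤ e) (R : ℕ) (x : ℝ) :
    cnt a d t T R x ≤ cnt a d 0 ((T.erase t).image (fun e => e - t)) R x := by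
  unfold cnt
  apply Set.ncard_le_ncard _ ((Set.finite_Iic ⌊x⌋₊).subset (fun q hq => Nat.le_floor hq.1))
  rintro q ⟨h3, h4, h5, h6⟩
  refine ⟨h3, h4, fun j hj => ?_, h6⟩
  rw [h5 j hj, zero_add]
  rw [mem_Icc] at hj
  constructor
  · intro h6
    exact mem_image.2 ⟨t + j, mem_erase.2 ⟨by omega, h6⟩, by omega⟩
  · intro h6
    obtain ⟨e, he, hej⟩ := mem_image.1 h6
    obtain ⟨h7, h8⟩ := mem_erase.1 he
    have h9 := hmin e h8
    have : t + j = e := by omega
    rwa [this]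

theorem shift_sub {m : ℕ} {T : Finset ℕ} {t : ℕ} (hT : ∀ e ∈ T, e ≤ m) (hT2 : 2 ≤ T.card)
    (ht : t ∈ T) (hmin : ∀ e ∈ T, t ≤ e) : ((T.erase t).image (fun e => e - t)).Nonempty ∧
      (T.erase t).image (fun e => e - t) ⊆ Icc 1 m := by
  constructor
  · rw [Finset.image_nonempty, ← card_pos, card_erase_of_mem ht]
    omega
  · intro j hj
    obtain ⟨e, he, rfl⟩ := mem_image.1 hj
    obtain ⟨h3, h4⟩ := mem_erase.1 he
    have h5 := hmin e h4
    have h6 := hT e h4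
    rw [mem_Icc]
    omega

/-- the patterns in `{1, ..., m}`, if `{0, ..., m}` contains a set of exponents as required -/
theorem patterns (a d : ℤ) (hd : 1 ≤ d) (hg : Int.gcd a d = 1) (h2 : 2 ∣ a * d) (ha : a ≠ 0)
    (S : Finset ℕ) (hS : S.card = 45) {m : ℕ} (hm : ∀ e ∈ S, e ≤ m)
    (hcls : ∀ p : ℕ, p.Prime → 3 ≤ p → p ≤ 43 → (p : ℤ) ∣ d - 1 → ¬ (p : ℤ) ∣ a →
      ∃ r : ℕ, ∀ e ∈ S, ¬ e ≡ r [MOD p]) :
    (∀ R : ℕ, ∀ᶠ x : ℝ in atTop, ∃ T : Finset ℕ, T.Nonempty ∧ T ⊆ Icc 1 m ∧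
        x / Real.log x ^ (B45 + 1) ≤ cnt a d 0 T R x) ∧
      ∃ T : Finset ℕ, T.Nonempty ∧ T ⊆ Icc 1 m ∧ ∀ R : ℕ, ∃ᶠ x : ℝ in atTop,
        x / Real.log x ^ (B45 + 1) ≤ cnt a d 0 T R x := by
  constructor
  · intro R
    filter_upwards [every_scale a d hd hg h2 ha S hS hcls R] with x hx
    obtain ⟨T, hTS, hT2, t, ht, hmin, h⟩ := hx
    obtain ⟨h3, h4⟩ := shift_sub (fun e he => hm e (hTS he)) hT2 ht hmin
    exact ⟨_, h3, h4, h.trans (by exact_mod_cast cnt_shift a d T t hmin R x)⟩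
  · obtain ⟨T, hTS, hT2, t, ht, hmin, h⟩ := one_pattern a d hd hg h2 ha S hS hcls
    obtain ⟨h3, h4⟩ := shift_sub (fun e he => hm e (hTS he)) hT2 ht hmin
    exact ⟨_, h3, h4, fun R => (h R).mono fun x hx =>
      hx.trans (by exact_mod_cast cnt_shift a d T t hmin R x)⟩

/-- an explicit set of 45 exponents -/
def E45 : Finset ℕ := {0, 1, 3, 4, 6, 9, 10, 13, 15, 16, 18, 21, 24, 25, 28, 31, 34, 36, 39, 43, 45, 48, 49,
  51, 55, 58, 60, 64, 66, 69, 70, 73, 76, 78, 79, 81, 88, 90, 91, 93, 94, 99, 100, 105, 106}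

set_option maxRecDepth 20000 in
theorem E45_card : E45.card = 45 := by decide

set_option maxRecDepth 20000 in
theorem E45_le : ∀ e ∈ E45, e ≤ 106 := by decide

set_option maxRecDepth 20000 in
theorem E45_cls (p : ℕ) (hp : p.Prime) (h3 : 3 ≤ p) (h43 : p ≤ 43) :
    ∃ r : ℕ, ∀ e ∈ E45, ¬ e ≡ r [MOD p] := by
  have key : ∀ r : ℕ, (∀ e ∈ E45, ¬ e % p = r % p) → ∃ r : ℕ, ∀ e ∈ E45, ¬ e ≡ r [MOD p] :=
    fun r h => ⟨r, h⟩
  interval_cases p <;> first
    | exact absurd hp (by decide)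
    | exact key 2 (by decide)
    | exact key 5 (by decide)
    | exact key 8 (by decide)
    | exact key 7 (by decide)
    | exact key 12 (by decide)
    | exact key 17 (by decide)
    | exact key 22 (by decide)

end Pool.Agent.R493.EX
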